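import Pool.Agent.helper35.LV.Spec

/-!
# Row lv:CHI (MP_a2a22c_al)
-/

set_option autoImplicit false

namespace Pool.Agent.LV

open Matrix Pool.Agent.H48SL Pool.Agent.UG

theorem CHI_add {n : ℕ} (a b : Fin n → ℤ) : castV (a + b) = castV a + castV b := by
  ext i
  simp [castV]

theorem CHI_smul {n : ℕ} (c : ℤ) (a : Fin n → ℤ) : castV (c • a) = (c : ℚ) • castV a := by
  ext i
  simp [castV]

theorem CHI_span {n : ℕ} (W : Submodule ℤ (Fin n → ℤ)) (y : Fin n → ℚ)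
    (hy : y ∈ Submodule.span ℚ (castV '' (W : Set (Fin n → ℤ)))) :
    ∃ N : ℤ, N ≠ 0 ∧ ∃ w ∈ W, castV w = (N : ℚ) • y := by
  induction hy using Submodule.span_induction with
  | mem x hx =>
    obtain ⟨w, hw, rfl⟩ := hx
    exact ⟨1, one_ne_zero, w, hw, by simp⟩
  | zero => exact ⟨1, one_ne_zero, 0, W.zero_mem, by rw [castV_zero]; simp⟩
  | add x y _ _ hx hy =>
    obtain ⟨N, hN, w, hw, h1⟩ := hx
    obtain ⟨M, hM, v, hv, h2⟩ := hy
    refine ⟨N * M, mul_ne_zero hN hM, M • w + N • v, W.add_mem (W.smul_mem _ hw) (W.smul_mem _ hv), ?_⟩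
    rw [CHI_add, CHI_smul, CHI_smul, h1, h2]
    push_cast
    module
  | smul a x _ hx =>
    obtain ⟨N, hN, w, hw, h1⟩ := hx
    refine ⟨a.den * N, mul_ne_zero (by exact_mod_cast a.den_ne_zero) hN, a.num • w, W.smul_mem _ hw, ?_⟩
    rw [CHI_smul, h1, smul_smul, smul_smul]
    congr 1
    push_cast
    have h2 : (a.den : ℚ) * a = a.num := by
      rw [mul_comm]; exact Rat.mul_den_eq_num a
    rw [← h2]
    ring

theorem CHI_one {n : ℕ} (W : Submodule ℤ (Fin n → ℤ)) (x₁ x₂ : Fin n → ℤ)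
    (h : ∀ a b : ℤ, a • x₁ + b • x₂ ∈ W → a = 0 ∧ b = 0) :
    ∃ χ : Fin n → ℤ, χ ⬝ᵥ x₁ ≠ 0 ∧ χ ⬝ᵥ x₂ = 0 ∧ ∀ w ∈ W, χ ⬝ᵥ w = 0 := by
  classical
  set p : Submodule ℚ (Fin n → ℚ) :=
    Submodule.span ℚ (castV '' (W : Set (Fin n → ℤ))) ⊔ Submodule.span ℚ {castV x₂} with hp
  have hx : castV x₁ ∉ p := by
    intro hmem
    obtain ⟨y, hy, z, hz, hyz⟩ := Submodule.mem_sup.1 hmem
    obtain ⟨c, rfl⟩ := Submodule.mem_span_singleton.1 hz
    obtain ⟨N, hN, w, hw, h1⟩ := CHI_span W y hy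
    have h2 : (c.den : ℚ) * c = c.num := by
      rw [mul_comm]; exact Rat.mul_den_eq_num c
    have h3 : castV (((c.den : ℤ) * N) • x₁ + (-(N * c.num)) • x₂) = castV ((c.den : ℤ) • w) := by
      rw [CHI_add, CHI_smul, CHI_smul, CHI_smul, h1, ← hyz]
      push_cast
      rw [← h2]
      module
    have h4 := castV_inj h3
    have h5 := h ((c.den : ℤ) * N) (-(N * c.num)) (by rw [h4]; exact W.smul_mem _ hw)
    exact mul_ne_zero (by exact_mod_cast c.den_ne_zero) hN h5.1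
  obtain ⟨f, hf1, hf2⟩ := Submodule.exists_dual_map_eq_bot_of_notMem (p := p) hx inferInstance
  obtain ⟨N, hN, χ, hχ⟩ := dual_int f
  have hfp : ∀ y ∈ p, f y = 0 := by
    intro y hy
    have h1 : f y ∈ p.map f := Submodule.mem_map_of_mem hy
    rw [hf2] at h1
    exact (Submodule.mem_bot ℚ).1 h1
  refine ⟨χ, ?_, ?_, ?_⟩
  · intro h0
    have h1 := hχ x₁
    rw [h0] at h1
    have h2 : (N : ℚ) * f (castV x₁) ≠ 0 := mul_ne_zero (by exact_mod_cast hN) hf1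
    exact h2 (by rw [← h1]; simp)
  · have h1 := hχ x₂
    rw [hfp _ (Submodule.mem_sup_right (Submodule.mem_span_singleton_self _)), mul_zero] at h1
    exact_mod_cast h1
  · intro w hw
    have h1 := hχ w
    rw [hfp _ (Submodule.mem_sup_left (Submodule.subset_span ⟨w, hw, rfl⟩)), mul_zero] at h1
    exact_mod_cast h1

theorem CHI : CHI_stmt := by
  intro n W x₁ x₂ h
  obtain ⟨χ₁, h1, h2, h3⟩ := CHI_one W x₁ x₂ h
  obtain ⟨χ₂, k1, k2, k3⟩ := CHI_one W x₂ x₁ (by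
    intro a b hab
    have := h b a (by rw [add_comm]; exact hab)
    exact ⟨this.2, this.1⟩)
  refine ⟨(χ₁ ⬝ᵥ x₁) * (χ₂ ⬝ᵥ x₂), (χ₂ ⬝ᵥ x₂) • χ₁, (χ₁ ⬝ᵥ x₁) • χ₂, mul_ne_zero h1 k1, ?_, ?_, ?_, ?_, ?_, ?_⟩
  · intro w hw
    rw [smul_dotProduct, h3 w hw, smul_zero]
  · intro w hw
    rw [smul_dotProduct, k3 w hw, smul_zero]
  · rw [smul_dotProduct, smul_eq_mul, mul_comm]
  · rw [smul_dotProduct, h2, smul_zero]
  · rw [smul_dotProduct, k2, smul_zero]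
  · rw [smul_dotProduct, smul_eq_mul]

end Pool.Agent.LV
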