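import Pool.Agent.helper35.LV.Spec

/-!
# Row lv:L3B (MP_a2a22c_al, project lv: the Levi criterion)
-/

set_option autoImplicit false

namespace Pool.Agent.LV

open Matrix Pool.Agent.H48SL Pool.Agent.UG

theorem L3B_mv {y f p : Fin 3 → ℚ} : (1 + vecMulVec y f : MQ 3) *ᵥ p = p + (f ⬝ᵥ p) • y := by
  rw [add_mulVec, one_mulVec, vecMulVec_mulVec]
  ext i
  simp [mul_comm]

theorem L3B_zpow {z : SLZ 3} {y f p : Fin 3 → ℚ} (hz : qg z = 1 + vecMulVec y f) (hfy : f ⬝ᵥ y = 0) (hfp : f ⬝ᵥ p = 1) :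
    ∀ m : ℤ, qg (z ^ m) *ᵥ p = p + (m : ℚ) • y := by
  have h1 : ∀ r : ℚ, qg z *ᵥ (p + r • y) = p + (r + 1) • y := by
    intro r
    rw [hz, L3B_mv, dotProduct_add, dotProduct_smul, hfy, hfp, smul_zero, add_zero, one_smul, add_smul, one_smul]
    abel
  have h2 : ∀ r : ℚ, qg z⁻¹ *ᵥ (p + r • y) = p + (r - 1) • y := by
    intro r
    have h3 := h1 (r - 1)
    rw [sub_add_cancel] at h3
    rw [← h3, mulVec_mulVec, qg_inv_mul, one_mulVec]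
  intro m
  induction m using Int.induction_on with
  | zero => rw [zpow_zero, qg_one, one_mulVec, Int.cast_zero, zero_smul, add_zero]
  | succ i ih =>
    rw [← mul_self_zpow, qg_mul, ← mulVec_mulVec, ih, h1]
    push_cast
    rfl
  | pred i ih =>
    have e : z ^ (-(i : ℤ) - 1) = z⁻¹ * z ^ (-(i : ℤ)) := by
      rw [sub_eq_neg_add, _root_.zpow_add, _root_.zpow_neg_one]
    rw [e, qg_mul, ← mulVec_mulVec, ih, h2]
    push_cast
    rfl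

theorem L3B (hFCQ : FCQ_stmt) (hHX4 : HX4_stmt) : L3B_stmt := by
  intro H hD F hF hu
  set Q : MQ 3 := F.map (Int.cast : ℤ → ℚ) with hQ
  have hdet : Q.det ≠ 0 := by
    have h1 : Q.det = (F.det : ℚ) := (Int.cast_det F).symm
    rw [h1]
    exact_mod_cast hF
  have hdu : IsUnit Q.det := isUnit_iff_ne_zero.2 hdet
  obtain ⟨G, hQG, hGQ⟩ : ∃ G : MQ 3, Q * G = 1 ∧ G * Q = 1 := ⟨Q⁻¹, mul_nonsing_inv Q hdu, nonsing_inv_mul Q hdu⟩
  have hS : IsGrp {M : MQ 3 | ∃ h ∈ H, qg h * Q = Q * M} := by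
    refine ⟨⟨1, H.one_mem, by rw [qg_one, one_mul, mul_one]⟩, ?_, ?_⟩
    · rintro A ⟨h, hh, hA⟩ B ⟨h', hh', hB⟩
      refine ⟨h * h', H.mul_mem hh hh', ?_⟩
      rw [qg_mul, mul_assoc, hB, ← mul_assoc, hA, mul_assoc]
    · rintro A ⟨h, hh, hA⟩
      have hA' : A = G * (qg h * Q) := by rw [hA, ← mul_assoc, hGQ, one_mul]
      refine ⟨G * (qg h⁻¹ * Q), ⟨h⁻¹, H.inv_mem hh, ?_⟩, ?_, ?_⟩
      · rw [← mul_assoc Q, hQG, one_mul]
      · rw [hA']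
        calc G * (qg h * Q) * (G * (qg h⁻¹ * Q)) = G * (qg h * (Q * G) * qg h⁻¹) * Q := by noncomm_ring
          _ = 1 := by rw [hQG, mul_one, qg_mul_inv, mul_one, hGQ]
      · rw [hA']
        calc G * (qg h⁻¹ * Q) * (G * (qg h * Q)) = G * (qg h⁻¹ * (Q * G) * qg h) * Q := by noncomm_ring
          _ = 1 := by rw [hQG, mul_one, qg_inv_mul, mul_one, hGQ]
  obtain ⟨r₁, t₁, r₂, t₂, hne, hm1, hm2⟩ := hHX4 _ hS (by
    intro i j k hij hjk hik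
    obtain ⟨h, hh, a, c, e, ha, hc, he⟩ := hu i j k hij hjk hik
    exact ⟨a, c, e, ha, hc, h, hh, he⟩)
  obtain ⟨z₁, hz₁, hz₁'⟩ := hm1
  obtain ⟨z₂, hz₂, hz₂'⟩ := hm2
  set w : Fin 3 → ℚ := ![0, 0, 1] with hw
  have hxm : ∀ r t : ℚ, xm 1 2 r * xm 0 2 t = 1 + vecMulVec ![t, r, 0] w := by
    intro r t
    unfold xm
    ext i j
    fin_cases i <;> fin_cases j <;> simp [Matrix.mul_apply, Fin.sum_univ_three, Matrix.single_apply, vecMulVec_apply, hw, Matrix.one_apply]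
  set f : Fin 3 → ℚ := w ᵥ* G with hf
  have hqz : ∀ (z : SLZ 3) (r t : ℚ), qg z * Q = Q * (xm 1 2 r * xm 0 2 t) → qg z = 1 + vecMulVec (Q *ᵥ ![t, r, 0]) f := by
    intro z r t h
    have h1 : qg z = (qg z * Q) * G := by rw [mul_assoc, hQG, mul_one]
    rw [h1, h, hxm, mul_add, add_mul, mul_one, hQG, mul_vecMulVec, vecMulVec_mul]
  have hq1 := hqz z₁ r₁ t₁ hz₁'
  have hq2 := hqz z₂ r₂ t₂ hz₂'
  have hfQ : ∀ u : Fin 3 → ℚ, f ⬝ᵥ (Q *ᵥ u) = w ⬝ᵥ u := by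
    intro u
    rw [hf, ← dotProduct_mulVec, mulVec_mulVec, hGQ, one_mulVec]
  have hwu : ∀ r t : ℚ, w ⬝ᵥ ![t, r, 0] = 0 := by
    intro r t
    rw [hw]
    simp [dotProduct, Fin.sum_univ_three]
  have hww : w ⬝ᵥ w = 1 := by
    rw [hw]
    simp [dotProduct, Fin.sum_univ_three]
  have hGQv : ∀ u : Fin 3 → ℚ, G *ᵥ (Q *ᵥ u) = u := by
    intro u
    rw [mulVec_mulVec, hGQ, one_mulVec]
  have hf0 : f ≠ 0 := by
    intro h0
    have h1 := hfQ w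
    rw [hww, h0, zero_dotProduct] at h1
    exact zero_ne_one h1
  have hy0 : Q *ᵥ ![t₁, r₁, 0] ≠ 0 := by
    intro h0
    have h1 := hGQv ![t₁, r₁, 0]
    rw [h0, mulVec_zero] at h1
    have h2 := congrFun h1 0
    have h3 := congrFun h1 1
    simp at h2 h3
    apply hne
    rw [← h2, ← h3]
    ring
  have hfy1 : f ⬝ᵥ (Q *ᵥ ![t₁, r₁, 0]) = 0 := by rw [hfQ, hwu]
  have hfy2 : f ⬝ᵥ (Q *ᵥ ![t₂, r₂, 0]) = 0 := by rw [hfQ, hwu]
  have hfp : f ⬝ᵥ (Q *ᵥ w) = 1 := by rw [hfQ, hww]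
  refine hFCQ 3 le_rfl H hD z₁ hz₁ z₂ hz₂ (Q *ᵥ ![t₁, r₁, 0]) f hy0 hf0 hfy1 hq1 ?_ (Or.inr ?_)
  · rw [hq2, L3B_mv, hfy1, zero_smul, add_zero, hfy1]
  · intro k hk m hkm
    have h1 := L3B_zpow hq2 hfy2 hfp (k : ℤ)
    have h2 := L3B_zpow hq1 hfy1 hfp m
    rw [zpow_natCast, hkm, h2] at h1
    have h3 : (m : ℚ) • (Q *ᵥ ![t₁, r₁, 0]) = ((k : ℤ) : ℚ) • (Q *ᵥ ![t₂, r₂, 0]) := add_left_cancel h1
    have h4 := congrArg (fun v => G *ᵥ v) h3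
    simp only [mulVec_smul, hGQv] at h4
    have h5 := congrFun h4 0
    have h6 := congrFun h4 1
    simp at h5 h6
    have hk0 : (k : ℚ) ≠ 0 := by
      have : k ≠ 0 := by omega
      exact_mod_cast this
    apply hne
    have h7 : (k : ℚ) * (r₁ * t₂ - r₂ * t₁) = 0 := by
      linear_combination t₁ * h6 - r₁ * h5
    rcases mul_eq_zero.1 h7 with h | h
    · exact absurd h hk0
    · exact sub_eq_zero.1 h

end Pool.Agent.LV
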